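import Pool.Agent.H930Z.Dir.Spec

/-! Total turning of the outer normal, stable under a cut-off. -/

open MeasureTheory Set Filter Topology Real

noncomputable section

namespace H235Z.DirTop

open H930Z.Dir

lemma toC_cd {n : WithTop ℕ∞} : ContDiff ℝ n toC := by
  have h1 : ContDiff ℝ n (fun v : ℝ × ℝ => (v.1 : ℂ)) :=
    Complex.ofRealCLM.contDiff.comp contDiff_fst
  have h2 : ContDiff ℝ n (fun v : ℝ × ℝ => (v.2 : ℂ)) :=
    Complex.ofRealCLM.contDiff.comp contDiff_snd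
  exact h1.add (h2.mul contDiff_const)

lemma d1_cd {F : Type} [NormedAddCommGroup F] [NormedSpace ℝ F] {U : ℝ × ℝ → F}
    {m n : WithTop ℕ∞} (h : ContDiff ℝ n U) (hmn : m + 1 ≤ n) : ContDiff ℝ m (d1 U) :=
  (h.fderiv_right hmn).clm_apply contDiff_const

lemma d2_cd {F : Type} [NormedAddCommGroup F] [NormedSpace ℝ F] {U : ℝ × ℝ → F}
    {m n : WithTop ℕ∞} (h : ContDiff ℝ n U) (hmn : m + 1 ≤ n) : ContDiff ℝ m (d2 U) :=
  (h.fderiv_right hmn).clm_apply contDiff_const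

lemma Tm_cd {Γ : ℝ × ℝ → ℝ × ℝ} (h : ContDiff ℝ 3 Γ) : ContDiff ℝ 2 (Tm Γ) := by
  have a1 : ContDiff ℝ 2 (fun w => toC (d1 Γ w)) := toC_cd.comp (d1_cd h (by norm_num))
  have a2 : ContDiff ℝ 2 (fun w => toC (d2 Γ w)) := toC_cd.comp (d2_cd h (by norm_num))
  have a3 : ContDiff ℝ 2 (fun w => starRingEnd ℂ (toC w)) :=
    Complex.conjCLE.contDiff.comp toC_cd
  exact (a1.sub (contDiff_const.mul a2)).sub ((a1.add (contDiff_const.mul a2)).mul (a3.pow 2))

lemma normSq_toC (w : ℝ × ℝ) : Complex.normSq (toC w) = w.1 ^ 2 + w.2 ^ 2 := by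
  simp [toC, Complex.normSq_apply]; ring

lemma Tm_ne {Γ : ℝ × ℝ → ℝ × ℝ} (h : Dom Γ) {w : ℝ × ℝ} (hw : w ∈ cdisc) : Tm Γ w ≠ 0 := by
  intro h0
  have hj := h.pos w hw
  have e := sub_eq_zero.mp h0
  have e2 := congrArg Complex.normSq e
  rw [map_mul, map_pow, Complex.normSq_conj, normSq_toC] at e2
  have hw' : w.1 ^ 2 + w.2 ^ 2 ≤ 1 := hw
  have hd : Complex.normSq (toC (d1 Γ w) - Complex.I * toC (d2 Γ w)) -
      Complex.normSq (toC (d1 Γ w) + Complex.I * toC (d2 Γ w)) = 4 * jac Γ w := by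
    simp [toC, Complex.normSq_apply, jac]; ring
  have h1 : (w.1 ^ 2 + w.2 ^ 2) ^ 2 ≤ 1 := pow_le_one₀ (by positivity) hw'
  have h2 := Complex.normSq_nonneg (toC (d1 Γ w) + Complex.I * toC (d2 Γ w))
  nlinarith [mul_le_mul_of_nonneg_left h1 h2]

lemma cs_cd {n : WithTop ℕ∞} : ContDiff ℝ n cs := Real.contDiff_cos.prodMk Real.contDiff_sin

lemma cs_mem (θ : ℝ) : cs θ ∈ cdisc := by
  simp [cs, cdisc]

lemma disc_sub : disc ⊆ cdisc := fun w hw =>
  show w.1 ^ 2 + w.2 ^ 2 ≤ 1 from le_of_lt hw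

lemma cda_div {P S : ℝ × ℝ → ℂ} {w : ℝ × ℝ} (hP : ContDiffAt ℝ 1 P w)
    (hS : ContDiffAt ℝ 1 S w) (h0 : S w ≠ 0) : ContDiffAt ℝ 1 (fun x => P x / S x) w := by
  simp only [div_eq_mul_inv]
  exact hP.mul (hS.inv h0)

lemma disc_meas : MeasurableSet disc :=
  (isOpen_lt (by fun_prop) continuous_const).measurableSet

lemma cdisc_compact : IsCompact cdisc := by
  refine Metric.isCompact_of_isClosed_isBounded (isClosed_le (by fun_prop) continuous_const) ?_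
  refine (Metric.isBounded_closedBall (x := (0 : ℝ × ℝ)) (r := 1)).subset fun w hw => ?_
  have hw' : w.1 ^ 2 + w.2 ^ 2 ≤ 1 := hw
  rw [mem_closedBall_zero_iff, Prod.norm_def, max_le_iff, Real.norm_eq_abs, Real.norm_eq_abs,
    abs_le, abs_le]
  refine ⟨⟨?_, ?_⟩, ?_, ?_⟩ <;> nlinarith [sq_nonneg w.1, sq_nonneg w.2]

lemma stokes_im (h1 : S_stokesD) {U V : ℝ × ℝ → ℂ} (hU : ∀ w ∈ cdisc, ContDiffAt ℝ 1 U w)
    (hV : ContDiff ℝ 2 V) :
    (∫ w in disc, J U V w).im =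
      ∫ θ in (-π)..π, (U (cs θ) * deriv (fun t => V (cs t)) θ).im := by
  rw [h1 U V hU fun w _ => hV.contDiffAt]
  have c1 : Continuous fun θ => U (cs θ) :=
    continuous_iff_continuousAt.mpr fun θ =>
      ContinuousAt.comp (hU _ (cs_mem θ)).continuousAt (cs_cd (n := 0)).continuous.continuousAt
  have c2 : Continuous (deriv fun t => V (cs t)) :=
    (hV.comp cs_cd).continuous_deriv (by norm_num)
  exact (Complex.imCLM.intervalIntegral_comp_comm ((c1.mul c2).intervalIntegrable _ _)).symm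

lemma J_div {P S : ℝ × ℝ → ℂ} {w : ℝ × ℝ} (hP : DifferentiableAt ℝ P w)
    (hS : DifferentiableAt ℝ S w) (h0 : S w ≠ 0) :
    J (fun x => P x / S x) S w = J P S w / S w := by
  have e : ∀ v, fderiv ℝ (fun x => P x / S x) w v =
      fderiv ℝ P w v / S w - P w * fderiv ℝ S w v / S w ^ 2 := by
    intro v
    have hi : HasFDerivAt (fun x => (S x)⁻¹) _ w :=
      (hasFDerivAt_inv' (𝕜 := ℝ) h0).comp w hS.hasFDerivAt
    have := (hP.hasFDerivAt.mul hi).fderiv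
    simp only [div_eq_mul_inv]
    rw [show (fun x => P x * (S x)⁻¹) = P * fun x => (S x)⁻¹ from rfl, this]
    simp
    field_simp
    ring
  simp only [J, d1, d2, e]
  field_simp
  ring

lemma kk_cont {Γ : ℝ × ℝ → ℝ × ℝ} (h : Dom Γ) : Continuous (kk Γ) := by
  have hT := Tm_cd h.smooth
  have c2 : Continuous (deriv fun t => Tm Γ (cs t)) :=
    (hT.comp cs_cd).continuous_deriv (by norm_num)
  have c1 : Continuous fun t => Tm Γ (cs t) := (hT.comp cs_cd).continuous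
  exact continuous_const.add
    (Complex.continuous_im.comp (c2.div c1 fun t => Tm_ne h (cs_mem t)))

lemma kk_int (h1 : S_stokesD) {Γ : ℝ × ℝ → ℝ × ℝ} (h : Dom Γ) :
    ∫ θ in (-π)..π, kk Γ θ = 2 * π := by
  have hT := Tm_cd h.smooth
  have e := stokes_im h1 (U := fun w => 1 / Tm Γ w) (V := Tm Γ)
    (fun w hw => cda_div contDiffAt_const (hT.of_le (by norm_num)).contDiffAt (Tm_ne h hw)) hT
  have z : ∫ w in disc, J (fun w => 1 / Tm Γ w) (Tm Γ) w = 0 := by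
    refine setIntegral_eq_zero_of_forall_eq_zero fun w hw => ?_
    rw [J_div (differentiableAt_const _) (hT.differentiable (by norm_num) w)
      (Tm_ne h (disc_sub hw))]
    simp [J, d1, d2]
  rw [z] at e
  have e2 : ∀ θ, (1 / Tm Γ (cs θ) * deriv (fun t => Tm Γ (cs t)) θ).im = kk Γ θ - 1 := by
    intro θ
    rw [kk, one_div, mul_comm, ← div_eq_mul_inv]; ring
  simp only [e2] at e
  rw [intervalIntegral.integral_sub ((kk_cont h).intervalIntegrable _ _)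
    (continuous_const.intervalIntegrable _ _)] at e
  simp at e
  linarith

/-- the auxiliary function with one zero at `w0` -/
def Sm (Γ : ℝ × ℝ → ℝ × ℝ) (w0 w : ℝ × ℝ) : ℂ :=
  (toC w - toC w0) * (1 - starRingEnd ℂ (toC w0) * toC w) * Tm Γ w

lemma Sm_cd {Γ : ℝ × ℝ → ℝ × ℝ} (h : ContDiff ℝ 3 Γ) (w0 : ℝ × ℝ) : ContDiff ℝ 2 (Sm Γ w0) :=
  ((toC_cd.sub contDiff_const).mul (contDiff_const.sub (contDiff_const.mul toC_cd))).mul (Tm_cd h)

lemma Sm_ne {Γ : ℝ × ℝ → ℝ × ℝ} (h : Dom Γ) {w0 w : ℝ × ℝ} (h0 : w0 ∈ disc) (hw : w ∈ cdisc)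
    (hne : w ≠ w0) : Sm Γ w0 w ≠ 0 := by
  refine mul_ne_zero (mul_ne_zero ?_ ?_) (Tm_ne h hw)
  · intro e
    apply hne
    have e1 := congrArg Complex.re e
    have e2 := congrArg Complex.im e
    simp [toC] at e1 e2
    exact Prod.ext (by linarith) (by linarith)
  · intro e
    have e2 := congrArg Complex.normSq (sub_eq_zero.mp e)
    rw [map_mul, Complex.normSq_conj, normSq_toC, normSq_toC, map_one] at e2
    have hw' : w.1 ^ 2 + w.2 ^ 2 ≤ 1 := hw
    have h0' : w0.1 ^ 2 + w0.2 ^ 2 < 1 := h0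
    nlinarith [mul_le_mul_of_nonneg_left hw' (by positivity : 0 ≤ w0.1 ^ 2 + w0.2 ^ 2)]

lemma cs_ne {w0 : ℝ × ℝ} (h0 : w0 ∈ disc) (θ : ℝ) : cs θ ≠ w0 := by
  intro e
  have h0' : w0.1 ^ 2 + w0.2 ^ 2 < 1 := h0
  rw [← e] at h0'
  simp [cs] at h0'

lemma Sm_log {Γ : ℝ × ℝ → ℝ × ℝ} (h : Dom Γ) {w0 : ℝ × ℝ} (h0 : w0 ∈ disc) (θ : ℝ) :
    (deriv (fun t => Sm Γ w0 (cs t)) θ / Sm Γ w0 (cs θ)).im = kk Γ θ := by
  set q : ℝ → ℝ := fun t => 1 + w0.1 ^ 2 + w0.2 ^ 2 - 2 * (w0.1 * Real.cos t + w0.2 * Real.sin t)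
    with hq
  have e : ∀ t, Sm Γ w0 (cs t) = (q t : ℂ) * toC (cs t) * Tm Γ (cs t) := by
    intro t
    unfold Sm
    congr 1
    have := Real.cos_sq_add_sin_sq t
    apply Complex.ext
    · simp only [toC, cs, hq, Complex.mul_re, Complex.mul_im, Complex.sub_re, Complex.sub_im,
        Complex.add_re, Complex.add_im, Complex.ofReal_re, Complex.ofReal_im, Complex.I_re,
        Complex.I_im, Complex.one_re, Complex.one_im, Complex.conj_re, Complex.conj_im]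
      linear_combination (w0.1) * this
    · simp only [toC, cs, hq, Complex.mul_re, Complex.mul_im, Complex.sub_re, Complex.sub_im,
        Complex.add_re, Complex.add_im, Complex.ofReal_re, Complex.ofReal_im, Complex.I_re,
        Complex.I_im, Complex.one_re, Complex.one_im, Complex.conj_re, Complex.conj_im]
      linear_combination (w0.2) * this
  have hne := Sm_ne h h0 (cs_mem θ) (cs_ne h0 θ)
  have dq : HasDerivAt (fun t => (q t : ℂ)) ((deriv q θ : ℝ) : ℂ) θ :=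
    (by simp only [hq]; fun_prop : DifferentiableAt ℝ q θ).hasDerivAt.ofReal_comp
  have dE : HasDerivAt (fun t => toC (cs t)) (Complex.I * toC (cs θ)) θ := by
    have := (Real.hasDerivAt_cos θ).ofReal_comp.add
      ((Real.hasDerivAt_sin θ).ofReal_comp.mul_const Complex.I)
    refine HasDerivAt.congr_deriv (f := fun t => toC (cs t)) this ?_
    simp only [toC, cs]
    push_cast
    linear_combination (-Complex.sin θ) * Complex.I_mul_I
  have dT : HasDerivAt (fun t => Tm Γ (cs t)) (deriv (fun t => Tm Γ (cs t)) θ) θ :=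
    (((Tm_cd h.smooth).comp cs_cd).differentiable (by norm_num) θ).hasDerivAt
  have := ((dq.mul dE).mul dT).deriv
  rw [show (fun t => Sm Γ w0 (cs t)) =
    ((fun t => (q t : ℂ)) * fun t => toC (cs t)) * fun t => Tm Γ (cs t) from funext e, this]
  rw [e] at hne ⊢
  have n1 : (q θ : ℂ) ≠ 0 := left_ne_zero_of_mul (left_ne_zero_of_mul hne)
  have n2 : toC (cs θ) ≠ 0 := right_ne_zero_of_mul (left_ne_zero_of_mul hne)
  have n3 : Tm Γ (cs θ) ≠ 0 := right_ne_zero_of_mul hne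
  have : ((((deriv q θ : ℝ) : ℂ) * toC (cs θ) + (q θ : ℂ) * (Complex.I * toC (cs θ))) *
      Tm Γ (cs θ) + ((fun t => (q t : ℂ)) * fun t => toC (cs t)) θ *
        deriv (fun t => Tm Γ (cs t)) θ) / ((q θ : ℂ) * toC (cs θ) * Tm Γ (cs θ)) =
      ((deriv q θ / q θ : ℝ) : ℂ) + Complex.I +
        deriv (fun t => Tm Γ (cs t)) θ / Tm Γ (cs θ) := by
    simp only [Pi.mul_apply]
    push_cast
    field_simp
  rw [this, kk, Complex.add_im, Complex.add_im, Complex.ofReal_im, Complex.I_im, zero_add]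

lemma fd_le (κ : ℝ × ℝ → ℝ) (x v : ℝ × ℝ) : |fderiv ℝ κ x v| ≤ 2 * ‖v‖ * gr κ x := by
  have e : fderiv ℝ κ x v = v.1 * d1 κ x + v.2 * d2 κ x := by
    have : v = v.1 • ((1, 0) : ℝ × ℝ) + v.2 • ((0, 1) : ℝ × ℝ) := by simp
    conv_lhs => rw [this]
    rw [map_add, map_smul, map_smul]; rfl
  have a1 : |d1 κ x| ≤ gr κ x := Real.abs_le_sqrt (by nlinarith [sq_nonneg (d2 κ x)])
  have a2 : |d2 κ x| ≤ gr κ x := Real.abs_le_sqrt (by nlinarith [sq_nonneg (d1 κ x)])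
  have b1 : |v.1| ≤ ‖v‖ := norm_fst_le v
  have b2 : |v.2| ≤ ‖v‖ := norm_snd_le v
  rw [e]
  calc _ ≤ |v.1| * |d1 κ x| + |v.2| * |d2 κ x| := by
        rw [← abs_mul, ← abs_mul]; exact abs_add_le _ _
    _ ≤ ‖v‖ * gr κ x + ‖v‖ * gr κ x := by gcongr
    _ = _ := by ring

lemma jac_cont {Γ : ℝ × ℝ → ℝ × ℝ} (h : ContDiff ℝ 3 Γ) : Continuous (jac Γ) := by
  have a1 := (d1_cd (m := 0) h (by norm_num)).continuous
  have a2 := (d2_cd (m := 0) h (by norm_num)).continuous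
  unfold jac
  fun_prop

theorem top (h1 : S_stokesD) (h2 : S_cov) : S_top := by
  rintro Γ h O hO ⟨_, hx0, w0, h0, rfl⟩
  have hΓ := h.smooth
  have hS := Sm_cd hΓ w0
  have hW : IsOpen (Γ ⁻¹' O) := hO.preimage hΓ.continuous
  have hK : IsCompact (cdisc \ Γ ⁻¹' O) := cdisc_compact.diff hW
  have hne : ∀ w ∈ cdisc \ Γ ⁻¹' O, Sm Γ w0 w ≠ 0 := fun w hw =>
    Sm_ne h h0 hw.1 fun e => hw.2 (by rw [e]; exact hx0)
  have a1 := (d1_cd (m := 0) hΓ (by norm_num)).continuous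
  have a2 := (d2_cd (m := 0) hΓ (by norm_num)).continuous
  have s1 := (d1_cd (m := 0) hS (by norm_num)).continuous
  have s2 := (d2_cd (m := 0) hS (by norm_num)).continuous
  have hB : ContinuousOn (fun w => (2 * ‖d1 Γ w‖ * ‖d2 (Sm Γ w0) w‖ +
      2 * ‖d2 Γ w‖ * ‖d1 (Sm Γ w0) w‖) / (‖Sm Γ w0 w‖ * jac Γ w)) (cdisc \ Γ ⁻¹' O) := by
    refine ContinuousOn.div (Continuous.continuousOn (by fun_prop))
      (hS.continuous.norm.mul (jac_cont hΓ)).continuousOn fun w hw => ?_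
    exact mul_ne_zero (norm_ne_zero_iff.mpr (hne w hw)) (h.pos w hw.1).ne'
  obtain ⟨C0, hC0⟩ := hK.exists_bound_of_continuousOn hB
  refine ⟨max C0 0, le_max_right _ _, fun κ hκ hκ1 => ?_⟩
  set P : ℝ × ℝ → ℂ := fun w => ((κ (Γ w) - 1 : ℝ) : ℂ) with hP
  have hPc : ContDiff ℝ 1 P :=
    Complex.ofRealCLM.contDiff.comp ((hκ.comp (hΓ.of_le (by norm_num))).sub contDiff_const)
  have hz : ∀ w ∈ Γ ⁻¹' O, (fun x => P x / Sm Γ w0 x) =ᶠ[𝓝 w] fun _ => 0 := fun w hw => by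
    filter_upwards [hW.mem_nhds hw] with x hx
    simp [hP, hκ1 _ hx]
  have hU : ∀ w ∈ cdisc, ContDiffAt ℝ 1 (fun x => P x / Sm Γ w0 x) w := fun w hw => by
    by_cases hw' : w ∈ Γ ⁻¹' O
    · exact contDiffAt_const.congr_of_eventuallyEq (hz w hw')
    · exact cda_div hPc.contDiffAt (hS.of_le (by norm_num)).contDiffAt (hne w ⟨hw, hw'⟩)
  have e := stokes_im h1 hU hS
  have e2 : ∀ θ, (P (cs θ) / Sm Γ w0 (cs θ) * deriv (fun t => Sm Γ w0 (cs t)) θ).im =
      κ (Γ (cs θ)) * kk Γ θ - kk Γ θ := by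
    intro θ
    rw [div_mul_eq_mul_div, mul_div_assoc, hP, Complex.im_ofReal_mul, Sm_log h h0]; ring
  simp only [e2] at e
  have ck : Continuous fun θ => κ (Γ (cs θ)) * kk Γ θ :=
    (hκ.continuous.comp (hΓ.continuous.comp (cs_cd (n := 0)).continuous)).mul (kk_cont h)
  rw [intervalIntegral.integral_sub (ck.intervalIntegrable _ _)
    ((kk_cont h).intervalIntegrable _ _), kk_int h1 h] at e
  have cg : Continuous (gr κ) := by
    have b1 := (d1_cd (m := 0) hκ (by norm_num)).continuous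
    have b2 := (d2_cd (m := 0) hκ (by norm_num)).continuous
    unfold gr
    fun_prop
  have hI : IntegrableOn (fun w => max C0 0 * (jac Γ w * gr κ (Γ w))) disc :=
    ((continuous_const.mul ((jac_cont hΓ).mul (cg.comp hΓ.continuous))).continuousOn.integrableOn_compact
      cdisc_compact).mono_set disc_sub
  have hb : ‖∫ w in disc, J (fun x => P x / Sm Γ w0 x) (Sm Γ w0) w‖ ≤
      ∫ w in disc, max C0 0 * (jac Γ w * gr κ (Γ w)) := by
    refine norm_integral_le_of_norm_le hI ((ae_restrict_iff' disc_meas).mpr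
      (Eventually.of_forall fun w hw => ?_))
    have hj := h.pos w (disc_sub hw)
    have hg : 0 ≤ gr κ (Γ w) := Real.sqrt_nonneg _
    by_cases hw' : w ∈ Γ ⁻¹' O
    · have : fderiv ℝ (fun x => P x / Sm Γ w0 x) w = 0 := by
        rw [(hz w hw').fderiv_eq]; simp
      simp only [J, d1, d2, this, zero_apply, zero_mul, sub_zero, norm_zero]
      positivity
    · have hn := hne w ⟨disc_sub hw, hw'⟩
      have hn' : 0 < ‖Sm Γ w0 w‖ := norm_pos_iff.mpr hn
      rw [J_div (hPc.differentiable (by norm_num) w) (hS.differentiable (by norm_num) w) hn,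
        norm_div]
      have fP : ∀ v, ‖fderiv ℝ P w v‖ ≤ 2 * ‖fderiv ℝ Γ w v‖ * gr κ (Γ w) := by
        intro v
        have k1 : HasFDerivAt (fun x => κ (Γ x) - 1) _ w :=
          ((hκ.differentiable (by norm_num) (Γ w)).hasFDerivAt.comp w
            (hΓ.differentiable (by norm_num) w).hasFDerivAt).sub_const 1
        have k2 : HasFDerivAt P _ w := Complex.ofRealCLM.hasFDerivAt.comp w k1
        rw [k2.fderiv]
        simpa using fd_le κ (Γ w) (fderiv ℝ Γ w v)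
      have hJ : ‖J P (Sm Γ w0) w‖ ≤ (2 * ‖d1 Γ w‖ * ‖d2 (Sm Γ w0) w‖ +
          2 * ‖d2 Γ w‖ * ‖d1 (Sm Γ w0) w‖) * gr κ (Γ w) := by
        have f1 : ‖d1 P w‖ ≤ 2 * ‖d1 Γ w‖ * gr κ (Γ w) := fP _
        have f2 : ‖d2 P w‖ ≤ 2 * ‖d2 Γ w‖ * gr κ (Γ w) := fP _
        calc _ ≤ ‖d1 P w‖ * ‖d2 (Sm Γ w0) w‖ + ‖d2 P w‖ * ‖d1 (Sm Γ w0) w‖ := by
              rw [← norm_mul, ← norm_mul]; exact norm_sub_le _ _
          _ ≤ (2 * ‖d1 Γ w‖ * gr κ (Γ w)) * ‖d2 (Sm Γ w0) w‖ +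
              (2 * ‖d2 Γ w‖ * gr κ (Γ w)) * ‖d1 (Sm Γ w0) w‖ := by gcongr
          _ = _ := by ring
      have hc := ((le_abs_self _).trans (hC0 w ⟨disc_sub hw, hw'⟩)).trans (le_max_left C0 0)
      rw [div_le_iff₀ (mul_pos hn' hj)] at hc
      rw [div_le_iff₀ hn']
      calc _ ≤ _ := hJ
        _ ≤ (max C0 0 * (‖Sm Γ w0 w‖ * jac Γ w)) * gr κ (Γ w) := by gcongr
        _ = _ := by ring
  rw [integral_const_mul, ← h2 Γ h] at hb
  have := (Complex.abs_im_le_norm _).trans hb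
  rw [e, abs_le] at this
  linarith [this.1]

end H235Z.DirTop
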